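import Pool.Agent.V1123.SSPCore

/-! Attaching a pendant vertex at a leaf of an SSP graph can destroy the SSP for all matrices.

Let `G` be `K_{3,3}` with parts `{0,1,2}`, `{3,4,5}`, the additional edge `01` and a leaf `6` at `0` (7 vertices,
11 edges). Every symmetric matrix with the pattern of `G` has the strong spectral property, but the graph `H` obtained by
attaching a pendant vertex at the leaf `6` has a matrix without the strong spectral property. -/

set_option autoImplicit false

open Finset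

namespace Pool.Agent.Results.MP_2eee52_co.PendantCounterexample

/-- `A` belongs to `S(G)`: it is a real symmetric matrix whose off-diagonal entry `A i j` is nonzero exactly when `i j` is
an edge (the diagonal is unrestricted). -/
def InS {V : Type} [Fintype V] (G : SimpleGraph V) (A : Matrix V V ℝ) : Prop :=
  A.IsSymm ∧ ∀ i j, i ≠ j → (A i j ≠ 0 ↔ G.Adj i j)

/-- The strong spectral property: the only symmetric `X` with `A ∘ X = 0`, `I ∘ X = 0` and `A X = X A` is `0`. -/
def SSP {V : Type} [Fintype V] (A : Matrix V V ℝ) : Prop :=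
  ∀ X : Matrix V V ℝ, X.IsSymm → (∀ i j, A i j * X i j = 0) → (∀ i, X i i = 0) → A * X = X * A → X = 0

/-- The graph `G` is an SSP graph: every matrix in `S(G)` has the SSP. -/
def SSPGraph {V : Type} [Fintype V] (G : SimpleGraph V) : Prop :=
  ∀ A : Matrix V V ℝ, InS G A → SSP A

/-- The graph `G` with a new vertex `none` attached to the vertex `v`. -/
def addPendant {V : Type} (G : SimpleGraph V) (v : V) : SimpleGraph (Option V) where
  Adj x y := (∃ a b, x = some a ∧ y = some b ∧ G.Adj a b) ∨ (x = some v ∧ y = none) ∨ (x = none ∧ y = some v)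
  symm := ⟨by
    rintro x y (⟨a, b, h1, h2, h3⟩ | ⟨h1, h2⟩ | ⟨h1, h2⟩)
    · exact Or.inl ⟨b, a, h2, h1, h3.symm⟩
    · exact Or.inr (Or.inr ⟨h2, h1⟩)
    · exact Or.inr (Or.inl ⟨h2, h1⟩)⟩
  loopless := ⟨by
    rintro x (⟨a, b, h1, h2, h3⟩ | ⟨h1, h2⟩ | ⟨h1, h2⟩)
    · rw [h1] at h2
      exact h3.ne (Option.some.inj h2)
    · rw [h1] at h2
      exact absurd h2 (by simp)
    · rw [h1] at h2
      exact absurd h2 (by simp)⟩

/-- the edges of `G` -/
def adjB (i j : Fin 7) : Bool :=
  decide ((i.val, j.val) ∈ ([(0, 1), (0, 3), (0, 4), (0, 5), (0, 6), (1, 3), (1, 4), (1, 5), (2, 3), (2, 4), (2, 5)] :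
    List (ℕ × ℕ)) ∨
    (j.val, i.val) ∈ ([(0, 1), (0, 3), (0, 4), (0, 5), (0, 6), (1, 3), (1, 4), (1, 5), (2, 3), (2, 4), (2, 5)] :
    List (ℕ × ℕ)))

/-- `K_{3,3}` with parts `{0,1,2}`, `{3,4,5}`, the edge `01` and the leaf `6` at `0` -/
def G : SimpleGraph (Fin 7) where
  Adj i j := adjB i j = true
  symm := ⟨by decide⟩
  loopless := ⟨by decide⟩

theorem G_ssp : SSPGraph G := by
  intro A hA X hX hAX hXd hcomm
  obtain ⟨hAs, hAp⟩ := hA
  have sA : ∀ i j, A j i = A i j := fun i j => hAs.apply i j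
  have sX : ∀ i j, X j i = X i j := fun i j => hX.apply i j
  have nz : ∀ i j : Fin 7, adjB i j = true → i ≠ j → A i j ≠ 0 := fun i j h hij => (hAp i j hij).2 h
  have zA : ∀ i j : Fin 7, adjB i j = false → i ≠ j → A i j = 0 := by
    intro i j h hij
    by_contra hne
    have := (hAp i j hij).1 hne
    change adjB i j = true at this
    rw [h] at this
    exact absurd this (by decide)
  have zX : ∀ i j : Fin 7, adjB i j = true → i ≠ j → X i j = 0 := fun i j h hij =>
    (mul_eq_zero.1 (hAX i j)).resolve_left (nz i j h hij)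
  have E : ∀ i j, ∑ k, A i k * X k j = ∑ k, X i k * A k j := by
    intro i j
    have := congrFun (congrFun hcomm i) j
    simpa only [Matrix.mul_apply] using this
  -- zero entries of `A`
  have A02 := zA 0 2 (by decide) (by decide)
  have A12 := zA 1 2 (by decide) (by decide)
  have A16 := zA 1 6 (by decide) (by decide)
  have A26 := zA 2 6 (by decide) (by decide)
  have A34 := zA 3 4 (by decide) (by decide)
  have A35 := zA 3 5 (by decide) (by decide)
  have A45 := zA 4 5 (by decide) (by decide)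
  have A36 := zA 3 6 (by decide) (by decide)
  have A46 := zA 4 6 (by decide) (by decide)
  have A56 := zA 5 6 (by decide) (by decide)
  -- zero entries of `X`
  have X01 := zX 0 1 (by decide) (by decide)
  have X03 := zX 0 3 (by decide) (by decide)
  have X04 := zX 0 4 (by decide) (by decide)
  have X05 := zX 0 5 (by decide) (by decide)
  have X06 := zX 0 6 (by decide) (by decide)
  have X13 := zX 1 3 (by decide) (by decide)
  have X14 := zX 1 4 (by decide) (by decide)
  have X15 := zX 1 5 (by decide) (by decide)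
  have X23 := zX 2 3 (by decide) (by decide)
  have X24 := zX 2 4 (by decide) (by decide)
  have X25 := zX 2 5 (by decide) (by decide)
  have q01 := E 0 1
  have q02 := E 0 2
  have q03 := E 0 3
  have q04 := E 0 4
  have q05 := E 0 5
  have q06 := E 0 6
  have q12 := E 1 2
  have q13 := E 1 3
  have q14 := E 1 4
  have q15 := E 1 5
  have q16 := E 1 6
  have q23 := E 2 3
  have q24 := E 2 4
  have q25 := E 2 5
  have q26 := E 2 6
  have q34 := E 3 4
  have q35 := E 3 5
  have q45 := E 4 5
  have q36 := E 3 6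
  have q46 := E 4 6
  have q56 := E 5 6
  simp only [Fin.sum_univ_seven, hXd, sA 0 1, sA 0 2, sA 0 3, sA 0 4, sA 0 5, sA 0 6, sA 1 2, sA 1 3, sA 1 4, sA 1 5,
    sA 1 6, sA 2 3, sA 2 4, sA 2 5, sA 2 6, sA 3 4, sA 3 5, sA 3 6, sA 4 5, sA 4 6, sA 5 6,
    sX 0 1, sX 0 2, sX 0 3, sX 0 4, sX 0 5, sX 0 6, sX 1 2, sX 1 3, sX 1 4, sX 1 5,
    sX 1 6, sX 2 3, sX 2 4, sX 2 5, sX 2 6, sX 3 4, sX 3 5, sX 3 6, sX 4 5, sX 4 6, sX 5 6,
    A02, A12, A16, A26, A34, A35, A45, A36, A46, A56, X01, X03, X04, X05, X06, X13, X14, X15, X23, X24, X25,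
    mul_zero, zero_mul, add_zero, zero_add] at q01 q02 q03 q04 q05 q06 q12 q13 q14 q15 q16 q23 q24 q25 q26 q34 q35 q45 q36 q46 q56
  obtain ⟨h1, h2, h3, h4, h5, h6, h7, h8, h9, h10⟩ := Pool.Agent.V1123.SSPCore.core
    (d0 := A 0 0) (d1 := A 1 1) (d2 := A 2 2) (d3 := A 3 3) (d4 := A 4 4) (d5 := A 5 5) (d6 := A 6 6)
    (e := A 0 1) (g := A 0 6) (a3 := A 0 3) (a4 := A 0 4) (a5 := A 0 5) (b3 := A 1 3) (b4 := A 1 4) (b5 := A 1 5)
    (c3 := A 2 3) (c4 := A 2 4) (c5 := A 2 5) (p := X 0 2) (q := X 1 2) (r := X 1 6) (s := X 2 6)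
    (u := X 3 4) (v := X 3 5) (w := X 4 5) (z3 := X 3 6) (z4 := X 4 6) (z5 := X 5 6)
    (nz 0 1 (by decide) (by decide)) (nz 0 6 (by decide) (by decide)) (nz 0 3 (by decide) (by decide))
    (nz 0 4 (by decide) (by decide)) (nz 0 5 (by decide) (by decide)) (nz 1 3 (by decide) (by decide))
    (nz 1 4 (by decide) (by decide)) (nz 1 5 (by decide) (by decide)) (nz 2 3 (by decide) (by decide))
    (nz 2 4 (by decide) (by decide)) (nz 2 5 (by decide) (by decide))
    (by linear_combination q01) (by linear_combination q02) (by linear_combination q03) (by linear_combination q04)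
    (by linear_combination q05) (by linear_combination q06) (by linear_combination q12) (by linear_combination q13)
    (by linear_combination q14) (by linear_combination q15) (by linear_combination q16) (by linear_combination q23)
    (by linear_combination q24) (by linear_combination q25) (by linear_combination q26) (by linear_combination q34)
    (by linear_combination q35) (by linear_combination q45) (by linear_combination q36) (by linear_combination q46)
    (by linear_combination q56)
  ext i j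
  fin_cases i <;> fin_cases j <;>
    simp only [Fin.zero_eta, Fin.mk_one, Fin.reduceFinMk, Matrix.zero_apply, hXd, sX 0 1, sX 0 2, sX 0 3, sX 0 4,
      sX 0 5, sX 0 6, sX 1 2, sX 1 3, sX 1 4, sX 1 5,
      sX 1 6, sX 2 3, sX 2 4, sX 2 5, sX 2 6, sX 3 4, sX 3 5, sX 3 6, sX 4 5, sX 4 6, sX 5 6,
      X01, X03, X04, X05, X06, X13, X14, X15, X23, X24, X25, h1, h2, h3, h4, h5, h6, h7, h8, h9, h10]

/-- the position of a vertex of `H` among `0, ..., 7` -/
def pos : Option (Fin 7) → Fin 8
  | none => 7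
  | some i => i.castSucc

/-- the integral pattern of the matrix -/
def Rm : Fin 8 → Fin 8 → ℤ :=
  ![![-8, -3, 0, -3, -3, -3, 2, 0],
    ![-3, -36, 0, 6, -6, -6, 0, 0],
    ![0, 0, -54, 12, 6, 6, 0, 0],
    ![-3, 6, 12, 0, 0, 0, 0, 0],
    ![-3, -6, 6, 0, 0, 0, 0, 0],
    ![-3, -6, 6, 0, 0, 0, 0, 0],
    ![2, 0, 0, 0, 0, 0, -12, 6],
    ![0, 0, 0, 0, 0, 0, 6, 0]]

/-- the commuting matrix -/
def Qm : Fin 8 → Fin 8 → ℤ :=
  ![![0, 0, 2, 0, 0, 0, 0, 0],
    ![0, 0, 2, 0, 0, 0, 0, 4],
    ![2, 2, 0, 0, 0, 0, -1, 1],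
    ![0, 0, 0, 0, -2, -2, 2, 10],
    ![0, 0, 0, -2, 0, -4, -1, -7],
    ![0, 0, 0, -2, -4, 0, -1, -7],
    ![0, 0, -1, 2, -1, -1, 0, 0],
    ![0, 4, 1, 10, -7, -7, 0, 0]]

/-- the squares of the scaling factors -/
def om : Fin 8 → ℕ := ![6, 1, 1, 1, 1, 1, 3, 1]

/-- the scaling factors -/
noncomputable def dl (i : Fin 8) : ℝ := Real.sqrt (om i)

theorem dl_sq (i : Fin 8) : dl i * dl i = (om i : ℝ) := Real.mul_self_sqrt (Nat.cast_nonneg _)

theorem dl_pos (i : Fin 8) : 0 < dl i := by
  apply Real.sqrt_pos.2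
  have : 0 < om i := by
    revert i
    decide
  exact_mod_cast this

/-- the matrix of `H` without the SSP -/
noncomputable def AH : Matrix (Option (Fin 7)) (Option (Fin 7)) ℝ :=
  Matrix.of fun x y => (Rm (pos x) (pos y) : ℝ) * (dl (pos x) * dl (pos y))

/-- the matrix commuting with it -/
noncomputable def XH : Matrix (Option (Fin 7)) (Option (Fin 7)) ℝ :=
  Matrix.of fun x y => (Qm (pos x) (pos y) : ℝ) * (dl (pos x) * dl (pos y))

theorem comm_int : ∀ x y : Option (Fin 7),
    ∑ k, Rm (pos x) (pos k) * (om (pos k) : ℤ) * Qm (pos k) (pos y) =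
      ∑ k, Qm (pos x) (pos k) * (om (pos k) : ℤ) * Rm (pos k) (pos y) := by
  decide +kernel

/-- the edges of `H` -/
def adjH : Option (Fin 7) → Option (Fin 7) → Bool
  | some i, some j => adjB i j
  | some i, none => decide (i = 6)
  | none, some j => decide (j = 6)
  | none, none => false

theorem adjH_iff (x y : Option (Fin 7)) : (addPendant G 6).Adj x y ↔ adjH x y = true := by
  constructor
  · rintro (⟨a, b, rfl, rfl, h⟩ | ⟨rfl, rfl⟩ | ⟨rfl, rfl⟩)
    · exact h
    · rfl
    · rfl
  · intro h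
    match x, y with
    | some i, some j => exact Or.inl ⟨i, j, rfl, rfl, h⟩
    | some i, none =>
      have h1 : i = 6 := of_decide_eq_true h
      exact Or.inr (Or.inl ⟨by rw [h1], rfl⟩)
    | none, some j =>
      have h1 : j = 6 := of_decide_eq_true h
      exact Or.inr (Or.inr ⟨rfl, by rw [h1]⟩)
    | none, none => exact absurd h (by decide)

theorem pattern : ∀ x y : Option (Fin 7), x ≠ y → (Rm (pos x) (pos y) ≠ 0 ↔ adjH x y = true) := by
  decide +kernel

theorem Rm_symm : ∀ i j, Rm i j = Rm j i := by decide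

theorem Qm_symm : ∀ i j, Qm i j = Qm j i := by decide

theorem RQ : ∀ i j, Rm i j * Qm i j = 0 := by decide

theorem Qd : ∀ i, Qm i i = 0 := by decide

theorem mul_formula (R Q : Fin 8 → Fin 8 → ℤ) (x y : Option (Fin 7)) :
    ((Matrix.of fun x y => (R (pos x) (pos y) : ℝ) * (dl (pos x) * dl (pos y)) :
        Matrix (Option (Fin 7)) (Option (Fin 7)) ℝ) *
      (Matrix.of fun x y => (Q (pos x) (pos y) : ℝ) * (dl (pos x) * dl (pos y)))) x y =
      dl (pos x) * dl (pos y) * ((∑ k, R (pos x) (pos k) * (om (pos k) : ℤ) * Q (pos k) (pos y) : ℤ) : ℝ) := by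
  rw [Matrix.mul_apply]
  push_cast
  rw [mul_sum]
  apply sum_congr rfl
  intro k _
  simp only [Matrix.of_apply]
  linear_combination (R (pos x) (pos k) : ℝ) * (Q (pos k) (pos y) : ℝ) * dl (pos x) * dl (pos y) * dl_sq (pos k)

theorem H_not : ¬ SSPGraph (addPendant G 6) := by
  intro h
  have hA : InS (addPendant G 6) AH := by
    refine ⟨?_, ?_⟩
    · ext x y
      simp only [AH, Matrix.transpose_apply, Matrix.of_apply]
      rw [Rm_symm (pos y) (pos x), mul_comm (dl (pos y))]
    · intro x y hxy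
      rw [adjH_iff, ← pattern x y hxy]
      have h1 : dl (pos x) * dl (pos y) ≠ 0 := (mul_pos (dl_pos _) (dl_pos _)).ne'
      simp only [AH, Matrix.of_apply]
      constructor
      · intro h2 h3
        apply h2
        rw [h3]
        simp
      · intro h2
        exact mul_ne_zero (Int.cast_ne_zero.2 h2) h1
  have hX := h AH hA XH ?_ ?_ ?_ ?_
  · have h1 := congrFun (congrFun hX (some 3)) (some 4)
    have h2 : (Qm (pos (some 3)) (pos (some 4)) : ℝ) * (dl (pos (some 3)) * dl (pos (some 4))) = 0 := h1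
    have h3 : Qm (pos (some 3)) (pos (some 4)) = -2 := by decide
    rw [h3] at h2
    have h4 : dl (pos (some 3)) * dl (pos (some 4)) ≠ 0 := (mul_pos (dl_pos _) (dl_pos _)).ne'
    exact mul_ne_zero (by norm_num) h4 h2
  · ext x y
    simp only [XH, Matrix.transpose_apply, Matrix.of_apply]
    rw [Qm_symm (pos y) (pos x), mul_comm (dl (pos y))]
  · intro x y
    simp only [AH, XH, Matrix.of_apply]
    have h1 : (Rm (pos x) (pos y) : ℝ) * (Qm (pos x) (pos y) : ℝ) = 0 := by
      exact_mod_cast RQ (pos x) (pos y)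
    linear_combination (dl (pos x) * dl (pos y)) ^ 2 * h1
  · intro x
    simp only [XH, Matrix.of_apply, Qd]
    simp
  · ext x y
    unfold AH XH
    rw [mul_formula Rm Qm x y, mul_formula Qm Rm x y, comm_int x y]

/-- There are an SSP graph `G` (on 7 vertices) and a leaf `v` of `G` such that the graph obtained from `G` by attaching a
pendant vertex at `v` is not an SSP graph. -/
theorem result : ∃ (G : SimpleGraph (Fin 7)) (v : Fin 7), (∃! u, G.Adj v u) ∧ SSPGraph G ∧
    ¬ SSPGraph (addPendant G v) := by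
  refine ⟨G, 6, ⟨0, ?_, ?_⟩, G_ssp, H_not⟩
  · change adjB 6 0 = true
    decide
  · intro u hu
    change adjB 6 u = true at hu
    revert u
    decide

end Pool.Agent.Results.MP_2eee52_co.PendantCounterexample
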